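import Pool.Agent.helper35.DR.SpecC
import Pool.Agent.helper58.DC.Spec1

set_option autoImplicit false

namespace Pool.Agent.DR

open Pool.Agent.helper58.DC Pool.Agent.DI

section

variable {Γ : Type} [Group Γ]

theorem CCJ_mul (ψ : Γ → ℂ) (a b : Γ) : funMap (MulAut.conj (a * b)) ψ =
    funMap (MulAut.conj a) (funMap (MulAut.conj b) ψ) := by
  funext g
  simp [funMap, mul_assoc]

theorem CCJ_inj (ψ θ : Γ → ℂ) (a : Γ) (h : funMap (MulAut.conj a) ψ = funMap (MulAut.conj a) θ) :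
    ψ = θ := by
  funext g
  have h1 := congrFun h (a * g * a⁻¹)
  simpa [funMap, mul_assoc] using h1

theorem CCJ_eq (ψ : Γ → ℂ) (N : Subgroup Γ) (a b : N) :
    funMap (MulAut.conj (a : Γ)) ψ = funMap (MulAut.conj (b : Γ)) ψ ↔
      a⁻¹ * b ∈ (stF N ψ).subgroupOf N := by
  rw [Subgroup.mem_subgroupOf]
  have h1 : (b : Γ) = a * ((a⁻¹ * b : N) : Γ) := by
    push_cast
    rw [mul_inv_cancel_left]
  constructor
  · intro h
    refine ⟨(a⁻¹ * b).2, ?_⟩
    rw [h1, CCJ_mul] at h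
    exact (CCJ_inj _ _ _ h).symm
  · rintro ⟨-, h⟩
    rw [h1, CCJ_mul, h]

theorem CCJ_card [Finite Γ] (ψ : Γ → ℂ) (N : Subgroup Γ) :
    Nat.card {θ : Γ → ℂ // ∃ n ∈ N, θ = funMap (MulAut.conj n) ψ} * Nat.card (stF N ψ) =
      Nat.card N := by
  set f : N → {θ : Γ → ℂ // ∃ n ∈ N, θ = funMap (MulAut.conj n) ψ} :=
    fun n => ⟨funMap (MulAut.conj (n : Γ)) ψ, n, n.2, rfl⟩ with hf
  have hfe : ∀ a b : N, f a = f b ↔ a⁻¹ * b ∈ (stF N ψ).subgroupOf N := by
    intro a b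
    rw [← CCJ_eq, hf]
    exact Subtype.mk_eq_mk
  let F : (N ⧸ (stF N ψ).subgroupOf N) → {θ : Γ → ℂ // ∃ n ∈ N, θ = funMap (MulAut.conj n) ψ} :=
    Quotient.lift f (fun a b h => (hfe a b).2 (QuotientGroup.leftRel_apply.1 h))
  have hF : Function.Bijective F := by
    constructor
    · intro x y
      obtain ⟨a, rfl⟩ := QuotientGroup.mk_surjective x
      obtain ⟨b, rfl⟩ := QuotientGroup.mk_surjective y
      intro h
      exact QuotientGroup.eq.2 ((hfe a b).1 h)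
    · rintro ⟨θ, n, hn, rfl⟩
      exact ⟨((⟨n, hn⟩ : N) : N ⧸ (stF N ψ).subgroupOf N), rfl⟩
  have h1 : Nat.card (N ⧸ (stF N ψ).subgroupOf N) =
      Nat.card {θ : Γ → ℂ // ∃ n ∈ N, θ = funMap (MulAut.conj n) ψ} :=
    Nat.card_congr (Equiv.ofBijective F hF)
  have hle : stF N ψ ≤ N := fun x hx => hx.1
  have h2 : Nat.card ((stF N ψ).subgroupOf N) = Nat.card (stF N ψ) :=
    Nat.card_congr (Subgroup.subgroupOfEquivOfLe hle).toEquiv
  rw [← h1, ← h2]
  exact (Subgroup.card_eq_card_quotient_mul_card_subgroup _).symm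

end

open Classical in
theorem CCJ (hIF : IF_stmt) : CCJ_stmt := by
  intro Γ _ _ K N hN ψ hψ
  have h1 : ∀ n ∈ N, funMap (MulAut.conj n) ψ ∈ IrrOn K := by
    intro n hn
    have h2 := ((hIF Γ K).2 ψ hψ).2.2 (MulAut.conj n)
    have h3 : K.map (MulAut.conj n).toMonoidHom = K := by
      have hnz : n ∈ nz K := hN hn
      have h4 : ∀ h : Γ, h ∈ K ↔ n * h * n⁻¹ ∈ K := by
        intro h
        exact Subgroup.mem_normalizer_iff.1 hnz h
      ext x
      constructor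
      · rintro ⟨y, hy, rfl⟩
        exact (h4 y).1 hy
      · intro hx
        refine ⟨n⁻¹ * x * n, (h4 _).2 ?_, ?_⟩
        · have : n * (n⁻¹ * x * n) * n⁻¹ = x := by group
          rw [this]
          exact hx
        · change n * (n⁻¹ * x * n) * n⁻¹ = x
          group
    rw [h3] at h2
    exact h2
  have hfin : (IrrOn K).Finite := (hIF Γ K).1
  set O : Set (Γ → ℂ) := {ψ' : Γ → ℂ | ∃ n ∈ N, ψ' = funMap (MulAut.conj n) ψ} with hO
  have hOK : O ⊆ IrrOn K := by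
    rintro θ ⟨n, hn, rfl⟩
    exact h1 n hn
  have hOfin : O.Finite := hfin.subset hOK
  have hval : ∀ n : Γ, (funMap (MulAut.conj n) ψ) 1 = ψ 1 := by
    intro n
    simp [funMap]
  have hsum : ∀ (e : ℕ) (x : Γ), (∑ᶠ θ ∈ IrrOn K,
      (if ∃ n ∈ N, θ = funMap (MulAut.conj n) ψ then (e : ℂ) else 0) * θ x) =
      e * ∑ᶠ ψ' ∈ O, ψ' x := by
    intro e x
    rw [finsum_mem_eq_finite_toFinset_sum _ hfin, finsum_mem_eq_finite_toFinset_sum _ hOfin,
      Finset.mul_sum]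
    have h2 : hOfin.toFinset = hfin.toFinset.filter
        (fun θ => ∃ n ∈ N, θ = funMap (MulAut.conj n) ψ) := by
      ext θ
      rw [Set.Finite.mem_toFinset, Finset.mem_filter, Set.Finite.mem_toFinset]
      exact ⟨fun h => ⟨hOK h, h⟩, fun h => h.2⟩
    rw [h2, Finset.sum_filter]
    refine Finset.sum_congr rfl fun θ _ => ?_
    split_ifs
    · rfl
    · rw [zero_mul]
  have hcard := CCJ_card ψ N
  refine ⟨fun n hn => ⟨h1 n hn, hval n⟩, ?_, hcard, ?_⟩
  · intro φ e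
    constructor
    · intro h x hx
      rw [hsum]
      exact h x hx
    · intro h x hx
      have := h x hx
      rw [hsum] at this
      exact this
  · intro φ e h
    have h2 := h 1 K.one_mem
    have h3 : ∑ᶠ ψ' ∈ O, ψ' 1 = (Nat.card {θ : Γ → ℂ // ∃ n ∈ N,
        θ = funMap (MulAut.conj n) ψ} : ℂ) * ψ 1 := by
      rw [finsum_mem_eq_finite_toFinset_sum _ hOfin]
      have h4 : ∀ θ ∈ hOfin.toFinset, θ 1 = ψ 1 := by
        intro θ hθ
        obtain ⟨n, -, rfl⟩ := (Set.Finite.mem_toFinset hOfin).1 hθ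
        exact hval n
      rw [Finset.sum_congr rfl h4, Finset.sum_const, nsmul_eq_mul]
      congr 2
      rw [← Set.ncard_eq_toFinset_card O hOfin]
      rfl
    have h5 : φ 1 = e * ((Nat.card {θ : Γ → ℂ // ∃ n ∈ N,
        θ = funMap (MulAut.conj n) ψ} : ℂ) * ψ 1) := by
      rw [← h3]
      exact h2
    rw [h5, ← hcard]
    push_cast
    ring

end Pool.Agent.DR
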