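import Pool.Agent.helper35.DR.SpecP

set_option autoImplicit false

namespace Pool.Agent.DR

open Pool.Agent.helper58.DC Pool.Agent.DI Finset

theorem PAB_fib {Y P : Type} [Fintype Y] [DecidableEq P] (π : Y → P) (w : Y → ℤ) (F : P → ℤ) :
    ∑ x, w x * F (π x) = ∑ p ∈ univ.image π, F p * ∑ x with π x = p, w x := by
  rw [← Finset.sum_fiberwise_of_maps_to (s := univ) (t := univ.image π) (g := π)
    (fun x _ => Finset.mem_image_of_mem π (Finset.mem_univ x))]
  refine Finset.sum_congr rfl fun p _ => ?_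
  rw [Finset.mul_sum]
  refine Finset.sum_congr rfl fun x hx => ?_
  rw [(Finset.mem_filter.1 hx).2, mul_comm]

open Classical in
theorem PAB : PAB_stmt := by
  intro 𝒢 _ K g c₀ m c v hc₀ hm hv hgK hg0 hgneg Y _ w d a hD e he
  -- the functions on the quotient
  have hlift : ∀ j : ℤ, ∃ G : 𝒢 ⧸ K → ℤ, ∀ u : 𝒢, G (u : 𝒢 ⧸ K) = g j u := by
    intro j
    refine ⟨Quotient.lift (g j) ?_, fun u => rfl⟩
    intro u u' h
    have h1 : u⁻¹ * u' ∈ K := QuotientGroup.leftRel_apply.1 h
    have h2 := hgK j u (u⁻¹ * u') h1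
    rw [mul_inv_cancel_left] at h2
    exact h2.symm
  choose G hG using hlift
  have hG0 : ∀ z : 𝒢 ⧸ K, G 0 z = if z = 1 then c₀ else 0 := by
    intro z
    obtain ⟨u, rfl⟩ := QuotientGroup.mk_surjective z
    rw [hG, hg0]
    simp only [QuotientGroup.eq_one_iff]
  have hGneg : ∀ j < 0, ∀ z : 𝒢 ⧸ K, G j z = 0 := by
    intro j hj z
    obtain ⟨u, rfl⟩ := QuotientGroup.mk_surjective z
    rw [hG, hgneg j hj]
  have hGg : ∀ (j : ℤ) (x y : Y), g j (a x * (a y)⁻¹)⁻¹ =
      G j (((a x : 𝒢 ⧸ K) * ((a y : 𝒢 ⧸ K))⁻¹)⁻¹) := by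
    intro j x y
    rw [← hG]
    rfl
  set π : Y → ℤ × (𝒢 ⧸ K) := fun x => (d x, (a x : 𝒢 ⧸ K)) with hπ
  set ν : ℤ × (𝒢 ⧸ K) → ℤ := fun p => ∑ x with π x = p, w x with hν
  have hfib : ∀ F : ℤ × (𝒢 ⧸ K) → ℤ, ∑ x, w x * F (π x) =
      ∑ p ∈ univ.image π, F p * ν p := fun F => PAB_fib π w F
  -- the main claim
  have hmain : ∀ p : ℤ × (𝒢 ⧸ K), 1 ≤ p.1 → ν p = 0 := by
    by_contra hcon
    push Not at hcon
    obtain ⟨p₁, hp₁, hp₁'⟩ := hcon
    set S : Finset (ℤ × (𝒢 ⧸ K)) := (univ.image π).filter (fun p => 1 ≤ p.1 ∧ ν p ≠ 0) with hS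
    have himg : ∀ p : ℤ × (𝒢 ⧸ K), ν p ≠ 0 → p ∈ univ.image π := by
      intro p hp
      obtain ⟨x, hx, -⟩ := Finset.exists_ne_zero_of_sum_ne_zero hp
      exact Finset.mem_image.2 ⟨x, Finset.mem_univ x, (Finset.mem_filter.1 hx).2⟩
    have hSne : S.Nonempty := ⟨p₁, Finset.mem_filter.2 ⟨himg p₁ hp₁', hp₁, hp₁'⟩⟩
    obtain ⟨p₀, hp₀, hmax⟩ := Finset.exists_max_image S (fun p => p.1) hSne
    obtain ⟨hp₀i, hp₀1, hp₀ν⟩ := Finset.mem_filter.1 hp₀
    set e₀ : ℤ := p₀.1 with he₀
    have hbig : ∀ p : ℤ × (𝒢 ⧸ K), e₀ < p.1 → ν p = 0 := by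
      intro p hp
      by_contra hne
      have := hmax p (Finset.mem_filter.2 ⟨himg p hne, by omega, hne⟩)
      omega
    have hA : ∀ F : ℤ × (𝒢 ⧸ K) → ℤ, (∀ p, p.1 ≤ e₀ → F p = 0) →
        ∑ x, w x * F (π x) = 0 := by
      intro F hF
      rw [hfib]
      refine Finset.sum_eq_zero fun p _ => ?_
      rcases le_or_gt p.1 e₀ with h | h
      · rw [hF p h, zero_mul]
      · rw [hbig p h, mul_zero]
    have hDD := hD (2 * e₀ + v) (by omega)
    -- the right side
    have hR : (∑ x : Y, ∑ y : Y, if d x + d y = 2 * e₀ + v then w x * w y else 0) = 0 := by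
      have h1 : ∀ x y : Y, (if d x + d y = 2 * e₀ + v then w x * w y else 0) =
          w y * (w x * (if e₀ < d x ∧ d x + d y = 2 * e₀ + v then 1 else 0)) +
          w x * (w y * (if e₀ < d y ∧ (d x ≤ e₀ ∧ d x + d y = 2 * e₀ + v) then 1 else 0)) := by
        intro x y
        by_cases h : d x + d y = 2 * e₀ + v
        · rcases le_or_gt (d x) e₀ with h2 | h2
          · rw [if_pos h, if_neg (by omega), if_pos (by omega)]
            ring
          · rw [if_pos h, if_pos (by omega), if_neg (by omega)]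
            ring
        · rw [if_neg h, if_neg (by tauto), if_neg (by tauto)]
          ring
      simp only [h1, Finset.sum_add_distrib]
      have h2 : (∑ x : Y, ∑ y : Y,
          w y * (w x * (if e₀ < d x ∧ d x + d y = 2 * e₀ + v then 1 else 0))) = 0 := by
        rw [Finset.sum_comm]
        refine Finset.sum_eq_zero fun y _ => ?_
        rw [← Finset.mul_sum]
        have h3 := hA (fun p => if e₀ < p.1 ∧ p.1 + d y = 2 * e₀ + v then 1 else 0)
          (fun p hp => if_neg (by omega))
        rw [h3, mul_zero]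
      have h4 : (∑ x : Y, ∑ y : Y,
          w x * (w y * (if e₀ < d y ∧ (d x ≤ e₀ ∧ d x + d y = 2 * e₀ + v) then 1 else 0))) =
          0 := by
        refine Finset.sum_eq_zero fun x _ => ?_
        rw [← Finset.mul_sum]
        have h3 := hA (fun p => if e₀ < p.1 ∧ (d x ≤ e₀ ∧ d x + p.1 = 2 * e₀ + v) then 1 else 0)
          (fun p hp => if_neg (by omega))
        rw [h3, mul_zero]
      rw [h2, h4, add_zero]
    -- the left side
    have hL : (∑ x : Y, ∑ y : Y,
        w x * w y * g (d x + d y + v - (2 * e₀ + v)) (a x * (a y)⁻¹)⁻¹) =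
        c₀ * ∑ p ∈ univ.image π, (if p.1 = e₀ then ν p else 0) * ν p := by
      have h1 : ∀ x y : Y, w x * w y * g (d x + d y + v - (2 * e₀ + v)) (a x * (a y)⁻¹)⁻¹ =
          w y * (w x * (if e₀ < d x then
            G (d x + d y - 2 * e₀) (((a x : 𝒢 ⧸ K) * ((a y : 𝒢 ⧸ K))⁻¹)⁻¹) else 0)) +
          w x * (w y * (if e₀ < d y then (if d x ≤ e₀ then
            G (d x + d y - 2 * e₀) (((a x : 𝒢 ⧸ K) * ((a y : 𝒢 ⧸ K))⁻¹)⁻¹) else 0) else 0)) +
          c₀ * (w x * (if d x = e₀ then (if π y = (e₀, (a x : 𝒢 ⧸ K)) then w y else 0)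
            else 0)) := by
        intro x y
        rw [hGg, show d x + d y + v - (2 * e₀ + v) = d x + d y - 2 * e₀ by ring]
        rcases lt_or_ge e₀ (d x) with h2 | h2
        · rw [if_pos h2]
          rw [if_neg (show ¬ d x ≤ e₀ by omega), if_neg (show ¬ d x = e₀ by omega)]
          simp only [ite_self, mul_zero, add_zero]
          ring
        · rw [if_neg (show ¬ e₀ < d x by omega)]
          rcases lt_or_ge e₀ (d y) with h3 | h3
          · rw [if_pos h3, if_pos h2]
            have h4 : ¬ π y = (e₀, (a x : 𝒢 ⧸ K)) := by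
              intro h
              have : d y = e₀ := congrArg Prod.fst h
              omega
            rw [if_neg h4]
            simp only [ite_self, mul_zero, add_zero, zero_add]
            ring
          · rw [if_neg (show ¬ e₀ < d y by omega)]
            simp only [mul_zero, zero_add]
            by_cases h5 : d x = e₀ ∧ d y = e₀
            · obtain ⟨h5, h6⟩ := h5
              rw [if_pos h5, show d x + d y - 2 * e₀ = 0 by omega, hG0]
              have h7 : (((a x : 𝒢 ⧸ K) * ((a y : 𝒢 ⧸ K))⁻¹)⁻¹ = 1) ↔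
                  π y = (e₀, (a x : 𝒢 ⧸ K)) := by
                rw [inv_eq_one, mul_inv_eq_one, hπ]
                simp only [Prod.mk.injEq]
                constructor
                · intro h
                  exact ⟨h6, h.symm⟩
                · intro h
                  exact h.2.symm
              simp only [h7]
              split_ifs <;> ring
            · rw [hGneg _ (by omega)]
              have h8 : (if d x = e₀ then (if π y = (e₀, (a x : 𝒢 ⧸ K)) then w y else 0)
                  else 0) = 0 := by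
                by_cases h9 : d x = e₀
                · have h10 : ¬ π y = (e₀, (a x : 𝒢 ⧸ K)) := by
                    intro h
                    have : d y = e₀ := congrArg Prod.fst h
                    exact h5 ⟨h9, this⟩
                  rw [if_pos h9, if_neg h10]
                · rw [if_neg h9]
              rw [h8]
              ring
      simp only [h1, Finset.sum_add_distrib]
      have h2 : (∑ x : Y, ∑ y : Y, w y * (w x * (if e₀ < d x then
            G (d x + d y - 2 * e₀) (((a x : 𝒢 ⧸ K) * ((a y : 𝒢 ⧸ K))⁻¹)⁻¹) else 0))) = 0 := by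
        rw [Finset.sum_comm]
        refine Finset.sum_eq_zero fun y _ => ?_
        rw [← Finset.mul_sum]
        have h3 := hA (fun p => if e₀ < p.1 then
            G (p.1 + d y - 2 * e₀) ((p.2 * ((a y : 𝒢 ⧸ K))⁻¹)⁻¹) else 0)
          (fun p hp => if_neg (by omega))
        rw [h3, mul_zero]
      have h4 : (∑ x : Y, ∑ y : Y, w x * (w y * (if e₀ < d y then (if d x ≤ e₀ then
            G (d x + d y - 2 * e₀) (((a x : 𝒢 ⧸ K) * ((a y : 𝒢 ⧸ K))⁻¹)⁻¹) else 0) else 0))) =
          0 := by
        refine Finset.sum_eq_zero fun x _ => ?_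
        rw [← Finset.mul_sum]
        have h3 := hA (fun p => if e₀ < p.1 then (if d x ≤ e₀ then
            G (d x + p.1 - 2 * e₀) (((a x : 𝒢 ⧸ K) * p.2⁻¹)⁻¹) else 0) else 0)
          (fun p hp => if_neg (by omega))
        rw [h3, mul_zero]
      have h5 : (∑ x : Y, ∑ y : Y, c₀ * (w x * (if d x = e₀ then
          (if π y = (e₀, (a x : 𝒢 ⧸ K)) then w y else 0) else 0))) =
          c₀ * ∑ x : Y, w x * (if (π x).1 = e₀ then ν (π x) else 0) := by
        rw [Finset.mul_sum]
        refine Finset.sum_congr rfl fun x _ => ?_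
        rw [← Finset.mul_sum, ← Finset.mul_sum]
        congr 2
        by_cases h6 : d x = e₀
        · have h7 : (π x).1 = e₀ := h6
          simp only [if_pos h6, if_pos h7, hν]
          rw [← Finset.sum_filter]
          have h8 : π x = (e₀, (a x : 𝒢 ⧸ K)) := by rw [← h6]
          rw [h8]
        · have h7 : ¬ (π x).1 = e₀ := h6
          simp only [if_neg h6, if_neg h7, Finset.sum_const_zero]
      rw [h2, h4, h5, zero_add, zero_add]
      congr 1
      exact hfib (fun p => if p.1 = e₀ then ν p else 0)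
    rw [hL, hR, mul_zero] at hDD
    have hpos : 0 < ∑ p ∈ univ.image π, (if p.1 = e₀ then ν p else 0) * ν p := by
      refine Finset.sum_pos' (fun p _ => ?_) ⟨p₀, hp₀i, ?_⟩
      · split_ifs
        · exact mul_self_nonneg _
        · rw [zero_mul]
      · rw [if_pos rfl]
        exact mul_self_pos.2 hp₀ν
    have := mul_pos hm (mul_pos hc₀ hpos)
    omega
  have h1 : (∑ y : Y, (if d y = e then w y else 0)) =
      ∑ y : Y, w y * (fun p : ℤ × (𝒢 ⧸ K) => if p.1 = e then (1 : ℤ) else 0) (π y) := by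
    refine Finset.sum_congr rfl fun y _ => ?_
    simp only [hπ]
    split_ifs <;> ring
  refine (h1.trans (hfib (fun p => if p.1 = e then (1 : ℤ) else 0))).trans ?_
  refine Finset.sum_eq_zero fun p _ => ?_
  split_ifs with h
  · rw [hmain p (by omega), mul_zero]
  · rw [zero_mul]

end Pool.Agent.DR
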