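import Pool.Agent.helper35.DR.SpecZ

set_option autoImplicit false

namespace Pool.Agent.DR

open Pool.Agent.helper58.DC Pool.Agent.DI

theorem ZFN_one {A : Type} [Group A] {n : ℕ} (z : Zn A n) : z.1 1 = 1 := by
  have h := z.2 1 1
  rw [mul_one] at h
  exact (mul_eq_left.1 h.symm)

theorem ZFN_pow {A : Type} [Group A] {n : ℕ} (z : Zn A n) (β : Bn A n) (k : ℕ) :
    z.1 (β ^ k) = z.1 β ^ k := by
  induction k with
  | zero => rw [pow_zero, pow_zero, ZFN_one]
  | succ k ih => rw [pow_succ, pow_succ, ← ih]; exact z.2 _ _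

theorem ZFN_pow_n {A : Type} [Group A] {n : ℕ} (z : Zn A n) (β : Bn A n) : z.1 β ^ n = 1 := by
  rw [← ZFN_pow]
  have h : β ^ n = 1 := by
    refine Subtype.ext ?_
    funext a b
    exact β.2.2 a b
  rw [h, ZFN_one]

theorem ZFN : ZFN_stmt := by
  intro A _ _ n hn
  have : NeZero n := ⟨by omega⟩
  have hfB : Finite (Bn A n) := by
    let f : Bn A n → (A → A → rootsOfUnity n ℂ) := fun β a b =>
      ⟨β.1 a b, (mem_rootsOfUnity n _).2 (β.2.2 a b)⟩
    refine Finite.of_injective f ?_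
    intro β γ h
    refine Subtype.ext ?_
    funext a b
    exact congrArg Subtype.val (congrFun (congrFun h a) b)
  have hfZ : Finite (Zn A n) := by
    let f : Zn A n → (Bn A n → rootsOfUnity n ℂ) := fun z β =>
      ⟨z.1 β, (mem_rootsOfUnity n _).2 (ZFN_pow_n z β)⟩
    refine Finite.of_injective f ?_
    intro z w h
    refine Subtype.ext ?_
    funext β
    exact congrArg Subtype.val (congrFun h β)
  have hfC : Finite (Cv A n) := by
    refine Finite.of_injective (fun x : Cv A n => (x.z, x.a)) ?_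
    intro x y h
    exact Cv.ext (congrArg Prod.fst h) (congrArg Prod.snd h)
  have hcen : ∀ x : Cv A n, x.a = 1 → ∀ y, x * y = y * x := by
    intro x hx y
    refine Cv.ext ?_ ?_
    · rw [Cv.mul_z, Cv.mul_z, hx, uB_one_left, uB_one_right, mul_one, mul_one, mul_comm]
    · rw [Cv.mul_a, Cv.mul_a, hx, one_mul, mul_one]
  refine ⟨hfB, hfZ, hfC, fun a => ⟨⟨1, a⟩, rfl⟩, ?_, fun x hx => hcen x hx, ?_, ?_, ?_, ?_⟩
  · refine Nat.card_congr ⟨fun x => x.1.z, fun z => ⟨⟨z, 1⟩, rfl⟩, ?_, fun z => rfl⟩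
    intro x
    refine Subtype.ext (Cv.ext rfl ?_)
    exact (show (x : Cv A n).a = 1 from x.2).symm
  · rintro r hr ⟨k, rfl⟩
    have : Fact r.Prime := ⟨hr⟩
    refine (IsPGroup.iff_card (p := r)).1 ?_
    intro z
    refine ⟨k, Subtype.ext ?_⟩
    funext β
    exact ZFN_pow_n z β
  · intro N
    rw [← Nat.card_prod]
    refine Nat.card_congr ⟨fun x => (⟨x.1.a, x.2⟩, x.1.z), fun y => ⟨⟨y.2, y.1.1⟩, y.1.2⟩,
      fun x => rfl, fun y => rfl⟩
  · intro N _
    have hs : Function.Surjective ((QuotientGroup.mk' N).comp (prC A n)) :=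
      (QuotientGroup.mk'_surjective N).comp (fun a => ⟨⟨1, a⟩, rfl⟩)
    have hk : ((QuotientGroup.mk' N).comp (prC A n)).ker = N.comap (prC A n) := by
      rw [← MonoidHom.comap_ker, QuotientGroup.ker_mk']
    exact ⟨(QuotientGroup.quotientMulEquivOfEq hk.symm).trans
      (QuotientGroup.quotientKerEquivOfSurjective _ hs)⟩
  · intro G E _ _ _ _ X
    have : Finite (E × Cv A n) := inferInstance
    refine ⟨inferInstance, fun e => ⟨⟨(e, ⟨1, X.proj e⟩), rfl⟩, rfl⟩, ?_, ?_, ?_⟩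
    · refine Nat.card_congr ⟨fun x => x.1.1.2.z, fun z => ⟨⟨(1, ⟨z, 1⟩), ?_⟩, rfl⟩, ?_,
        fun z => rfl⟩
      · rw [mem_FC]
        exact map_one _
      · rintro ⟨⟨⟨e, c⟩, h⟩, h'⟩
        have h1 : e = 1 := h'
        subst h1
        have h2 : c.a = 1 := by
          have h3 : X.proj 1 = c.a := h
          rw [← h3, map_one]
        refine Subtype.ext (Subtype.ext (Prod.ext rfl ?_))
        exact Cv.ext rfl h2.symm
    · rintro ⟨⟨e, c⟩, h⟩ h' y
      have h1 : e = 1 := h'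
      subst h1
      have h2 : c.a = 1 := by
        have h3 : X.proj 1 = c.a := h
        rw [← h3, map_one]
      refine Subtype.ext (Prod.ext ?_ ?_)
      · change 1 * y.1.1 = y.1.1 * 1
        rw [one_mul, mul_one]
      · exact hcen c h2 y.1.2
    · rw [eq_bot_iff]
      rintro ⟨⟨e, c⟩, h⟩ ⟨h1, h2⟩
      have h1' : e = 1 := h1
      have h2' : c = 1 := h2
      subst h1' h2'
      rfl

end Pool.Agent.DR
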